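import Pool.Agent.Lib.H84T.Tietze

/-!
# The Blanusa snark: a cyclically 4-edge-connected counterexample
-/

set_option autoImplicit false
set_option linter.unusedSectionVars false

namespace Pool.Agent.Lib.H84T

open SimpleGraph

/-- `G` is cyclically `4`-edge-connected: no edge cut with fewer than four edges has a cycle on both
sides, i.e. if both `G[S]` and `G[Sᶜ]` contain a cycle, the edge cut of `S` has at least four
edges. -/
def IsCyclicallyFourEdgeConnected {V : Type*} (G : SimpleGraph V) : Prop :=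
  ∀ S : Set V, ¬ (G.induce S).IsAcyclic → ¬ (G.induce Sᶜ).IsAcyclic → 4 ≤ (edgeCut G S).ncard

/-- The 27 edges of the Blanusa snark. -/
def bList : List (Fin 18 × Fin 18) :=
  [(9,4), (9,6), (6,1), (4,3), (1,2), (3,2), (6,8), (3,8), (9,7), (2,7), (8,5), (4,0), (5,0), (7,14), (14,16), (0,13), (16,13), (14,17), (1,12), (17,12), (13,15), (17,15), (5,10), (15,10), (16,11), (12,11), (10,11)]

def bEdges : Finset (Sym2 (Fin 18)) :=
  {s(0,4), s(0,5), s(0,13), s(1,2), s(1,6), s(1,12), s(2,3), s(2,7), s(3,4), s(3,8), s(4,9), s(5,8), s(5,10), s(6,8), s(6,9), s(7,9), s(7,14), s(10,11), s(10,15), s(11,12), s(11,16), s(12,17), s(13,15), s(13,16), s(14,16), s(14,17), s(15,17)}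

/-- The Blanusa snark. -/
def blan : SimpleGraph (Fin 18) := SimpleGraph.fromEdgeSet (bEdges : Set (Sym2 (Fin 18)))

instance : DecidableRel blan.Adj := fun a b =>
  decidable_of_iff (s(a,b) ∈ bEdges ∧ a ≠ b) (by simp [blan])

def btab : List ℕ := [2^4+2^5+2^13, 2^2+2^6+2^12, 2^1+2^3+2^7, 2^2+2^4+2^8, 2^0+2^3+2^9, 2^0+2^8+2^10, 2^1+2^8+2^9, 2^2+2^9+2^14, 2^3+2^5+2^6, 2^4+2^6+2^7, 2^5+2^11+2^15, 2^10+2^12+2^16, 2^1+2^11+2^17, 2^0+2^15+2^16, 2^7+2^16+2^17, 2^10+2^13+2^17, 2^11+2^13+2^14, 2^12+2^14+2^15]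

def bnb (x : ℕ) : ℕ := btab.getD x 0

theorem badj_iff : ∀ x y : Fin 18, blan.Adj x y ↔ (bnb x).testBit y = true := by
  decide +kernel

def bstep (A R : ℕ) : ℕ :=
  (List.range 18).foldl (fun acc x => if R.testBit x then acc ||| (bnb x &&& A) else acc) R

theorem bstep_sound (P : ℕ → Prop) (A R : ℕ) (hR : ∀ y, R.testBit y = true → P y)
    (hP : ∀ x y, x < 18 → P x → (bnb x).testBit y = true → A.testBit y = true → P y) :
    ∀ y, (bstep A R).testBit y = true → P y := by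
  unfold bstep
  have : ∀ (l : List ℕ) (acc : ℕ), (∀ x ∈ l, x < 18) → (∀ y, acc.testBit y = true → P y) →
      ∀ y, (l.foldl (fun acc x => if R.testBit x then acc ||| (bnb x &&& A) else acc) acc).testBit y = true
        → P y := by
    intro l
    induction l with
    | nil => intro acc _ h; simpa using h
    | cons x l ih =>
      intro acc hl hacc
      simp only [List.foldl_cons]
      apply ih
      · intro z hz; exact hl z (List.mem_cons_of_mem _ hz)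
      · intro y hy
        split_ifs at hy with hx
        · rw [Nat.testBit_or, Nat.testBit_and, Bool.or_eq_true, Bool.and_eq_true] at hy
          rcases hy with hy | hy
          · exact hacc y hy
          · exact hP x y (hl x (by simp)) (hR x hx) hy.1 hy.2
        · exact hacc y hy
  exact this _ _ (by simp) hR

theorem bstep_iter_sound (P : ℕ → Prop) (A R : ℕ) (hR : ∀ y, R.testBit y = true → P y)
    (hP : ∀ x y, x < 18 → P x → (bnb x).testBit y = true → A.testBit y = true → P y) (n : ℕ) :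
    ∀ y, ((bstep A)^[n] R).testBit y = true → P y := by
  induction n with
  | zero => simpa using hR
  | succ n ih =>
    rw [Function.iterate_succ_apply']
    exact bstep_sound P A _ ih hP

/-- the set `S` avoided, as a mask of allowed vertices -/
def ballowed (S : List ℕ) : ℕ := (List.range 18).foldl (fun acc x => if x ∈ S then acc else acc + 2^x) 0

theorem bcheck2 : ∀ a b : Fin 18, ∃ r : Fin 18, r ≠ a ∧ r ≠ b ∧
    ((bstep (ballowed [a.1,b.1]))^[10] (2^r.1)) = ballowed [a.1,b.1] := by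
  decide +kernel

theorem bcheck0 : ((bstep (ballowed []))^[10] (2^0)) = ballowed [] := by
  decide +kernel

theorem ballowed2 : ∀ a b x : Fin 18, (ballowed [a.1,b.1]).testBit x = true ↔ (x ≠ a ∧ x ≠ b) := by
  decide +kernel

theorem ballowed0 : ∀ x : Fin 18, (ballowed []).testBit x = true := by
  decide +kernel

theorem ballowed_lt2 : ∀ a b : Fin 18, ballowed [a.1,b.1] < 2^18 := by
  decide +kernel

theorem ballowed_lt0 : ballowed [] < 2^18 := by
  decide +kernel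

theorem bconn_aux (S : Finset (Fin 18)) (A : ℕ) (hA : A < 2^18) (r : Fin 18) (hr : r ∉ S)
    (hAS : ∀ x : Fin 18, A.testBit x = true ↔ x ∉ S)
    (h : ((bstep A)^[10] (2^r.1)) = A) : (blan.induce {v | v ∉ S}).Connected := by
  have key := bstep_iter_sound
    (fun y => ∃ (hy : y < 18) (hS : (⟨y, hy⟩ : Fin 18) ∉ S),
      (blan.induce {v | v ∉ S}).Reachable ⟨r, hr⟩ ⟨⟨y, hy⟩, hS⟩) A (2^r.1)
    (by
      intro y hy
      rw [Nat.testBit_two_pow, decide_eq_true_eq] at hy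
      subst hy
      exact ⟨r.2, hr, Reachable.refl _⟩)
    (by
      rintro x y hx ⟨hx', hxS, hreach⟩ hadj hyA
      have hy : y < 18 := by
        by_contra hcon
        have := Nat.testBit_lt_two_pow (x := A) (i := y)
          (lt_of_lt_of_le hA (Nat.pow_le_pow_right (by norm_num) (by omega)))
        rw [this] at hyA
        exact absurd hyA (by simp)
      have hyS : (⟨y, hy⟩ : Fin 18) ∉ S := (hAS ⟨y, hy⟩).1 hyA
      refine ⟨hy, hyS, hreach.trans ?_⟩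
      apply SimpleGraph.Adj.reachable
      simp only [SimpleGraph.comap_adj, Function.Embedding.subtype_apply]
      exact (badj_iff ⟨x, hx'⟩ ⟨y, hy⟩).2 hadj)
    10
  rw [h] at key
  rw [SimpleGraph.connected_iff_exists_forall_reachable]
  refine ⟨⟨r, hr⟩, ?_⟩
  rintro ⟨w, hw⟩
  obtain ⟨_, _, hreach⟩ := key w.1 ((hAS w).2 hw)
  exact hreach

theorem threeConn_blan : IsThreeConnected blan := by
  refine ⟨by simp, ?_⟩
  intro S hS
  have h012 : S.card = 0 ∨ S.card = 1 ∨ S.card = 2 := by omega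
  rcases h012 with h | h | h
  · rw [Finset.card_eq_zero] at h
    subst h
    exact bconn_aux ∅ _ ballowed_lt0 0 (by simp) (fun x => by simpa using ballowed0 x) bcheck0
  · rw [Finset.card_eq_one] at h
    obtain ⟨a, rfl⟩ := h
    obtain ⟨r, h1, _, h3⟩ := bcheck2 a a
    exact bconn_aux {a} _ (ballowed_lt2 a a) r (by simpa using h1)
      (fun x => by rw [ballowed2 a a x]; simp) h3
  · rw [Finset.card_eq_two] at h
    obtain ⟨a, b, _, rfl⟩ := h
    obtain ⟨r, h1, h2, h3⟩ := bcheck2 a b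
    exact bconn_aux {a, b} _ (ballowed_lt2 a b) r (by simp [h1, h2])
      (fun x => by rw [ballowed2 a b x]; simp) h3

theorem bdfs : ∀ b0 : Bool, ∀ b1 : Bool, 4 ≤ (b0 ^^ b1).toNat ∨
    ∀ b2 : Bool, 4 ≤ (b0 ^^ b1).toNat + (b0 ^^ b2).toNat ∨
    ∀ b3 : Bool, 4 ≤ (b0 ^^ b1).toNat + (b0 ^^ b2).toNat + (b2 ^^ b3).toNat ∨
    ∀ b4 : Bool, 4 ≤ (b0 ^^ b1).toNat + (b0 ^^ b2).toNat + (b2 ^^ b3).toNat + (b1 ^^ b4).toNat ∨
    ∀ b5 : Bool, 4 ≤ (b0 ^^ b1).toNat + (b0 ^^ b2).toNat + (b2 ^^ b3).toNat + (b1 ^^ b4).toNat + (b3 ^^ b5).toNat + (b4 ^^ b5).toNat ∨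
    ∀ b6 : Bool, 4 ≤ (b0 ^^ b1).toNat + (b0 ^^ b2).toNat + (b2 ^^ b3).toNat + (b1 ^^ b4).toNat + (b3 ^^ b5).toNat + (b4 ^^ b5).toNat + (b2 ^^ b6).toNat + (b4 ^^ b6).toNat ∨
    ∀ b7 : Bool, 4 ≤ (b0 ^^ b1).toNat + (b0 ^^ b2).toNat + (b2 ^^ b3).toNat + (b1 ^^ b4).toNat + (b3 ^^ b5).toNat + (b4 ^^ b5).toNat + (b2 ^^ b6).toNat + (b4 ^^ b6).toNat + (b0 ^^ b7).toNat + (b5 ^^ b7).toNat ∨
    ∀ b8 : Bool, 4 ≤ (b0 ^^ b1).toNat + (b0 ^^ b2).toNat + (b2 ^^ b3).toNat + (b1 ^^ b4).toNat + (b3 ^^ b5).toNat + (b4 ^^ b5).toNat + (b2 ^^ b6).toNat + (b4 ^^ b6).toNat + (b0 ^^ b7).toNat + (b5 ^^ b7).toNat + (b6 ^^ b8).toNat ∨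
    ∀ b9 : Bool, 4 ≤ (b0 ^^ b1).toNat + (b0 ^^ b2).toNat + (b2 ^^ b3).toNat + (b1 ^^ b4).toNat + (b3 ^^ b5).toNat + (b4 ^^ b5).toNat + (b2 ^^ b6).toNat + (b4 ^^ b6).toNat + (b0 ^^ b7).toNat + (b5 ^^ b7).toNat + (b6 ^^ b8).toNat + (b1 ^^ b9).toNat + (b8 ^^ b9).toNat ∨
    ∀ b10 : Bool, 4 ≤ (b0 ^^ b1).toNat + (b0 ^^ b2).toNat + (b2 ^^ b3).toNat + (b1 ^^ b4).toNat + (b3 ^^ b5).toNat + (b4 ^^ b5).toNat + (b2 ^^ b6).toNat + (b4 ^^ b6).toNat + (b0 ^^ b7).toNat + (b5 ^^ b7).toNat + (b6 ^^ b8).toNat + (b1 ^^ b9).toNat + (b8 ^^ b9).toNat + (b7 ^^ b10).toNat ∨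
    ∀ b11 : Bool, 4 ≤ (b0 ^^ b1).toNat + (b0 ^^ b2).toNat + (b2 ^^ b3).toNat + (b1 ^^ b4).toNat + (b3 ^^ b5).toNat + (b4 ^^ b5).toNat + (b2 ^^ b6).toNat + (b4 ^^ b6).toNat + (b0 ^^ b7).toNat + (b5 ^^ b7).toNat + (b6 ^^ b8).toNat + (b1 ^^ b9).toNat + (b8 ^^ b9).toNat + (b7 ^^ b10).toNat + (b10 ^^ b11).toNat ∨
    ∀ b12 : Bool, 4 ≤ (b0 ^^ b1).toNat + (b0 ^^ b2).toNat + (b2 ^^ b3).toNat + (b1 ^^ b4).toNat + (b3 ^^ b5).toNat + (b4 ^^ b5).toNat + (b2 ^^ b6).toNat + (b4 ^^ b6).toNat + (b0 ^^ b7).toNat + (b5 ^^ b7).toNat + (b6 ^^ b8).toNat + (b1 ^^ b9).toNat + (b8 ^^ b9).toNat + (b7 ^^ b10).toNat + (b10 ^^ b11).toNat + (b9 ^^ b12).toNat + (b11 ^^ b12).toNat ∨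
    ∀ b13 : Bool, 4 ≤ (b0 ^^ b1).toNat + (b0 ^^ b2).toNat + (b2 ^^ b3).toNat + (b1 ^^ b4).toNat + (b3 ^^ b5).toNat + (b4 ^^ b5).toNat + (b2 ^^ b6).toNat + (b4 ^^ b6).toNat + (b0 ^^ b7).toNat + (b5 ^^ b7).toNat + (b6 ^^ b8).toNat + (b1 ^^ b9).toNat + (b8 ^^ b9).toNat + (b7 ^^ b10).toNat + (b10 ^^ b11).toNat + (b9 ^^ b12).toNat + (b11 ^^ b12).toNat + (b10 ^^ b13).toNat ∨
    ∀ b14 : Bool, 4 ≤ (b0 ^^ b1).toNat + (b0 ^^ b2).toNat + (b2 ^^ b3).toNat + (b1 ^^ b4).toNat + (b3 ^^ b5).toNat + (b4 ^^ b5).toNat + (b2 ^^ b6).toNat + (b4 ^^ b6).toNat + (b0 ^^ b7).toNat + (b5 ^^ b7).toNat + (b6 ^^ b8).toNat + (b1 ^^ b9).toNat + (b8 ^^ b9).toNat + (b7 ^^ b10).toNat + (b10 ^^ b11).toNat + (b9 ^^ b12).toNat + (b11 ^^ b12).toNat + (b10 ^^ b13).toNat + (b3 ^^ b14).toNat + (b13 ^^ b14).toNat ∨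
    ∀ b15 : Bool, 4 ≤ (b0 ^^ b1).toNat + (b0 ^^ b2).toNat + (b2 ^^ b3).toNat + (b1 ^^ b4).toNat + (b3 ^^ b5).toNat + (b4 ^^ b5).toNat + (b2 ^^ b6).toNat + (b4 ^^ b6).toNat + (b0 ^^ b7).toNat + (b5 ^^ b7).toNat + (b6 ^^ b8).toNat + (b1 ^^ b9).toNat + (b8 ^^ b9).toNat + (b7 ^^ b10).toNat + (b10 ^^ b11).toNat + (b9 ^^ b12).toNat + (b11 ^^ b12).toNat + (b10 ^^ b13).toNat + (b3 ^^ b14).toNat + (b13 ^^ b14).toNat + (b12 ^^ b15).toNat + (b13 ^^ b15).toNat ∨
    ∀ b16 : Bool, 4 ≤ (b0 ^^ b1).toNat + (b0 ^^ b2).toNat + (b2 ^^ b3).toNat + (b1 ^^ b4).toNat + (b3 ^^ b5).toNat + (b4 ^^ b5).toNat + (b2 ^^ b6).toNat + (b4 ^^ b6).toNat + (b0 ^^ b7).toNat + (b5 ^^ b7).toNat + (b6 ^^ b8).toNat + (b1 ^^ b9).toNat + (b8 ^^ b9).toNat + (b7 ^^ b10).toNat + (b10 ^^ b11).toNat + (b9 ^^ b12).toNat + (b11 ^^ b12).toNat + (b10 ^^ b13).toNat + (b3 ^^ b14).toNat + (b13 ^^ b14).toNat + (b12 ^^ b15).toNat + (b13 ^^ b15).toNat + (b8 ^^ b16).toNat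 + (b15 ^^ b16).toNat ∨
    ∀ b17 : Bool, 4 ≤ (b0 ^^ b1).toNat + (b0 ^^ b2).toNat + (b2 ^^ b3).toNat + (b1 ^^ b4).toNat + (b3 ^^ b5).toNat + (b4 ^^ b5).toNat + (b2 ^^ b6).toNat + (b4 ^^ b6).toNat + (b0 ^^ b7).toNat + (b5 ^^ b7).toNat + (b6 ^^ b8).toNat + (b1 ^^ b9).toNat + (b8 ^^ b9).toNat + (b7 ^^ b10).toNat + (b10 ^^ b11).toNat + (b9 ^^ b12).toNat + (b11 ^^ b12).toNat + (b10 ^^ b13).toNat + (b3 ^^ b14).toNat + (b13 ^^ b14).toNat + (b12 ^^ b15).toNat + (b13 ^^ b15).toNat + (b8 ^^ b16).toNat + (b15 ^^ b16).toNat + (b11 ^^ b17).toNat + (b14 ^^ b17).toNat + (b16 ^^ b17).toNat ∨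
    (b0.toNat + b1.toNat + b2.toNat + b3.toNat + b4.toNat + b5.toNat + b6.toNat + b7.toNat + b8.toNat + b9.toNat + b10.toNat + b11.toNat + b12.toNat + b13.toNat + b14.toNat + b15.toNat + b16.toNat + b17.toNat ≤ 1 ∨ 17 ≤ b0.toNat + b1.toNat + b2.toNat + b3.toNat + b4.toNat + b5.toNat + b6.toNat + b7.toNat + b8.toNat + b9.toNat + b10.toNat + b11.toNat + b12.toNat + b13.toNat + b14.toNat + b15.toNat + b16.toNat + b17.toNat) := by
  decide +kernel

theorem bcut (σ : Fin 18 → Bool) : 4 ≤ (σ 9 ^^ σ 4).toNat + (σ 9 ^^ σ 6).toNat + (σ 6 ^^ σ 1).toNat + (σ 4 ^^ σ 3).toNat + (σ 1 ^^ σ 2).toNat + (σ 3 ^^ σ 2).toNat + (σ 6 ^^ σ 8).toNat + (σ 3 ^^ σ 8).toNat + (σ 9 ^^ σ 7).toNat + (σ 2 ^^ σ 7).toNat + (σ 8 ^^ σ 5).toNat + (σ 4 ^^ σ 0).toNat + (σ 5 ^^ σ 0).toNat + (σ 7 ^^ σ 14).toNat + (σ 14 ^^ σ 16).toNat + (σ 0 ^^ σ 13).toNat + (σ 16 ^^ σ 13).toNat + (σ 14 ^^ σ 17).toNat + (σ 1 ^^ σ 12).toNat + (σ 17 ^^ σ 12).toNat + (σ 13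 ^^ σ 15).toNat + (σ 17 ^^ σ 15).toNat + (σ 5 ^^ σ 10).toNat + (σ 15 ^^ σ 10).toNat + (σ 16 ^^ σ 11).toNat + (σ 12 ^^ σ 11).toNat + (σ 10 ^^ σ 11).toNat ∨
    ((σ 0).toNat + (σ 1).toNat + (σ 2).toNat + (σ 3).toNat + (σ 4).toNat + (σ 5).toNat + (σ 6).toNat + (σ 7).toNat + (σ 8).toNat + (σ 9).toNat + (σ 10).toNat + (σ 11).toNat + (σ 12).toNat + (σ 13).toNat + (σ 14).toNat + (σ 15).toNat + (σ 16).toNat + (σ 17).toNat ≤ 1 ∨ 17 ≤ (σ 0).toNat + (σ 1).toNat + (σ 2).toNat + (σ 3).toNat + (σ 4).toNat + (σ 5).toNat + (σ 6).toNat + (σ 7).toNat + (σ 8).toNat + (σ 9).toNat + (σ 10).toNat + (σ 11).toNat + (σ 12).toNat + (σ 13).toNat + (σ 14).toNat + (σ 15).toNat + (σ 16).toNat + (σ 17).toNat) := by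
  have h := bdfs (σ 9)
  rcases h (σ 4) with h | h
  · left; exact Nat.le_add_right_of_le (Nat.le_add_right_of_le (Nat.le_add_right_of_le (Nat.le_add_right_of_le (Nat.le_add_right_of_le (Nat.le_add_right_of_le (Nat.le_add_right_of_le (Nat.le_add_right_of_le (Nat.le_add_right_of_le (Nat.le_add_right_of_le (Nat.le_add_right_of_le (Nat.le_add_right_of_le (Nat.le_add_right_of_le (Nat.le_add_right_of_le (Nat.le_add_right_of_le (Nat.le_add_right_of_le (Nat.le_add_right_of_le (Nat.le_add_right_of_le (Nat.le_add_right_of_le (Nat.le_add_right_of_le (Nat.le_add_right_of_le (Nat.le_add_right_of_le (Nat.le_add_right_of_le (Nat.le_add_right_of_le (Nat.le_add_right_of_le (Nat.le_add_right_of_le (h))))))))))))))))))))))))))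
  rcases h (σ 6) with h | h
  · left; exact Nat.le_add_right_of_le (Nat.le_add_right_of_le (Nat.le_add_right_of_le (Nat.le_add_right_of_le (Nat.le_add_right_of_le (Nat.le_add_right_of_le (Nat.le_add_right_of_le (Nat.le_add_right_of_le (Nat.le_add_right_of_le (Nat.le_add_right_of_le (Nat.le_add_right_of_le (Nat.le_add_right_of_le (Nat.le_add_right_of_le (Nat.le_add_right_of_le (Nat.le_add_right_of_le (Nat.le_add_right_of_le (Nat.le_add_right_of_le (Nat.le_add_right_of_le (Nat.le_add_right_of_le (Nat.le_add_right_of_le (Nat.le_add_right_of_le (Nat.le_add_right_of_le (Nat.le_add_right_of_le (Nat.le_add_right_of_le (Nat.le_add_right_of_le (h)))))))))))))))))))))))))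
  rcases h (σ 1) with h | h
  · left; exact Nat.le_add_right_of_le (Nat.le_add_right_of_le (Nat.le_add_right_of_le (Nat.le_add_right_of_le (Nat.le_add_right_of_le (Nat.le_add_right_of_le (Nat.le_add_right_of_le (Nat.le_add_right_of_le (Nat.le_add_right_of_le (Nat.le_add_right_of_le (Nat.le_add_right_of_le (Nat.le_add_right_of_le (Nat.le_add_right_of_le (Nat.le_add_right_of_le (Nat.le_add_right_of_le (Nat.le_add_right_of_le (Nat.le_add_right_of_le (Nat.le_add_right_of_le (Nat.le_add_right_of_le (Nat.le_add_right_of_le (Nat.le_add_right_of_le (Nat.le_add_right_of_le (Nat.le_add_right_of_le (Nat.le_add_right_of_le (h))))))))))))))))))))))))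
  rcases h (σ 3) with h | h
  · left; exact Nat.le_add_right_of_le (Nat.le_add_right_of_le (Nat.le_add_right_of_le (Nat.le_add_right_of_le (Nat.le_add_right_of_le (Nat.le_add_right_of_le (Nat.le_add_right_of_le (Nat.le_add_right_of_le (Nat.le_add_right_of_le (Nat.le_add_right_of_le (Nat.le_add_right_of_le (Nat.le_add_right_of_le (Nat.le_add_right_of_le (Nat.le_add_right_of_le (Nat.le_add_right_of_le (Nat.le_add_right_of_le (Nat.le_add_right_of_le (Nat.le_add_right_of_le (Nat.le_add_right_of_le (Nat.le_add_right_of_le (Nat.le_add_right_of_le (Nat.le_add_right_of_le (Nat.le_add_right_of_le (h)))))))))))))))))))))))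
  rcases h (σ 2) with h | h
  · left; exact Nat.le_add_right_of_le (Nat.le_add_right_of_le (Nat.le_add_right_of_le (Nat.le_add_right_of_le (Nat.le_add_right_of_le (Nat.le_add_right_of_le (Nat.le_add_right_of_le (Nat.le_add_right_of_le (Nat.le_add_right_of_le (Nat.le_add_right_of_le (Nat.le_add_right_of_le (Nat.le_add_right_of_le (Nat.le_add_right_of_le (Nat.le_add_right_of_le (Nat.le_add_right_of_le (Nat.le_add_right_of_le (Nat.le_add_right_of_le (Nat.le_add_right_of_le (Nat.le_add_right_of_le (Nat.le_add_right_of_le (Nat.le_add_right_of_le (h)))))))))))))))))))))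
  rcases h (σ 8) with h | h
  · left; exact Nat.le_add_right_of_le (Nat.le_add_right_of_le (Nat.le_add_right_of_le (Nat.le_add_right_of_le (Nat.le_add_right_of_le (Nat.le_add_right_of_le (Nat.le_add_right_of_le (Nat.le_add_right_of_le (Nat.le_add_right_of_le (Nat.le_add_right_of_le (Nat.le_add_right_of_le (Nat.le_add_right_of_le (Nat.le_add_right_of_le (Nat.le_add_right_of_le (Nat.le_add_right_of_le (Nat.le_add_right_of_le (Nat.le_add_right_of_le (Nat.le_add_right_of_le (Nat.le_add_right_of_le (h)))))))))))))))))))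
  rcases h (σ 7) with h | h
  · left; exact Nat.le_add_right_of_le (Nat.le_add_right_of_le (Nat.le_add_right_of_le (Nat.le_add_right_of_le (Nat.le_add_right_of_le (Nat.le_add_right_of_le (Nat.le_add_right_of_le (Nat.le_add_right_of_le (Nat.le_add_right_of_le (Nat.le_add_right_of_le (Nat.le_add_right_of_le (Nat.le_add_right_of_le (Nat.le_add_right_of_le (Nat.le_add_right_of_le (Nat.le_add_right_of_le (Nat.le_add_right_of_le (Nat.le_add_right_of_le (h)))))))))))))))))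
  rcases h (σ 5) with h | h
  · left; exact Nat.le_add_right_of_le (Nat.le_add_right_of_le (Nat.le_add_right_of_le (Nat.le_add_right_of_le (Nat.le_add_right_of_le (Nat.le_add_right_of_le (Nat.le_add_right_of_le (Nat.le_add_right_of_le (Nat.le_add_right_of_le (Nat.le_add_right_of_le (Nat.le_add_right_of_le (Nat.le_add_right_of_le (Nat.le_add_right_of_le (Nat.le_add_right_of_le (Nat.le_add_right_of_le (Nat.le_add_right_of_le (h))))))))))))))))
  rcases h (σ 0) with h | h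
  · left; exact Nat.le_add_right_of_le (Nat.le_add_right_of_le (Nat.le_add_right_of_le (Nat.le_add_right_of_le (Nat.le_add_right_of_le (Nat.le_add_right_of_le (Nat.le_add_right_of_le (Nat.le_add_right_of_le (Nat.le_add_right_of_le (Nat.le_add_right_of_le (Nat.le_add_right_of_le (Nat.le_add_right_of_le (Nat.le_add_right_of_le (Nat.le_add_right_of_le (h))))))))))))))
  rcases h (σ 14) with h | h
  · left; exact Nat.le_add_right_of_le (Nat.le_add_right_of_le (Nat.le_add_right_of_le (Nat.le_add_right_of_le (Nat.le_add_right_of_le (Nat.le_add_right_of_le (Nat.le_add_right_of_le (Nat.le_add_right_of_le (Nat.le_add_right_of_le (Nat.le_add_right_of_le (Nat.le_add_right_of_le (Nat.le_add_right_of_le (Nat.le_add_right_of_le (h)))))))))))))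
  rcases h (σ 16) with h | h
  · left; exact Nat.le_add_right_of_le (Nat.le_add_right_of_le (Nat.le_add_right_of_le (Nat.le_add_right_of_le (Nat.le_add_right_of_le (Nat.le_add_right_of_le (Nat.le_add_right_of_le (Nat.le_add_right_of_le (Nat.le_add_right_of_le (Nat.le_add_right_of_le (Nat.le_add_right_of_le (Nat.le_add_right_of_le (h))))))))))))
  rcases h (σ 13) with h | h
  · left; exact Nat.le_add_right_of_le (Nat.le_add_right_of_le (Nat.le_add_right_of_le (Nat.le_add_right_of_le (Nat.le_add_right_of_le (Nat.le_add_right_of_le (Nat.le_add_right_of_le (Nat.le_add_right_of_le (Nat.le_add_right_of_le (Nat.le_add_right_of_le (h))))))))))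
  rcases h (σ 17) with h | h
  · left; exact Nat.le_add_right_of_le (Nat.le_add_right_of_le (Nat.le_add_right_of_le (Nat.le_add_right_of_le (Nat.le_add_right_of_le (Nat.le_add_right_of_le (Nat.le_add_right_of_le (Nat.le_add_right_of_le (Nat.le_add_right_of_le (h)))))))))
  rcases h (σ 12) with h | h
  · left; exact Nat.le_add_right_of_le (Nat.le_add_right_of_le (Nat.le_add_right_of_le (Nat.le_add_right_of_le (Nat.le_add_right_of_le (Nat.le_add_right_of_le (Nat.le_add_right_of_le (h)))))))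
  rcases h (σ 15) with h | h
  · left; exact Nat.le_add_right_of_le (Nat.le_add_right_of_le (Nat.le_add_right_of_le (Nat.le_add_right_of_le (Nat.le_add_right_of_le (h)))))
  rcases h (σ 10) with h | h
  · left; exact Nat.le_add_right_of_le (Nat.le_add_right_of_le (Nat.le_add_right_of_le (h)))
  rcases h (σ 11) with h | h
  · left; exact h
  · right
    rcases h with h | h
    · left; refine le_trans (le_of_eq ?_) h; ring
    · right; refine le_trans h (le_of_eq ?_); ring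

end Pool.Agent.Lib.H84T
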