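import Pool.Agent.Lib.H84T.Blan1

/-!
# The Blanusa snark is cyclically 4-edge-connected
-/

set_option autoImplicit false

namespace Pool.Agent.Lib.H84T

open SimpleGraph

theorem b2_filter (σ : Fin 18 → Bool) (L : List (Fin 18 × Fin 18)) :
    (L.filter (fun p => σ p.1 ^^ σ p.2)).length
      = (L.map (fun p => (σ p.1 ^^ σ p.2).toNat)).sum := by
  induction L with
  | nil => simp
  | cons a L ih =>
    rw [List.filter_cons, List.map_cons, List.sum_cons, ← ih]
    cases h : (σ a.1 ^^ σ a.2)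
    · simp
    · simp [add_comm]

theorem b2_nodup : (bList.map fun p => s(p.1, p.2)).Nodup := by decide +kernel

theorem b2_adj : ∀ p ∈ bList, blan.Adj p.1 p.2 := by decide +kernel

theorem b2_cut (S : Set (Fin 18)) (σ : Fin 18 → Bool) (hσ : ∀ v, σ v = true ↔ v ∈ S) :
    (bList.map (fun p => (σ p.1 ^^ σ p.2).toNat)).sum ≤ (edgeCut blan S).ncard := by
  classical
  rw [← b2_filter]
  set T := (bList.filter (fun p => σ p.1 ^^ σ p.2)).map fun p => s(p.1, p.2) with hT
  have hnd : T.Nodup := b2_nodup.sublist (List.Sublist.map _ List.filter_sublist)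
  have hlen : (bList.filter (fun p => σ p.1 ^^ σ p.2)).length = T.toFinset.card := by
    rw [List.toFinset_card_of_nodup hnd, hT, List.length_map]
  rw [hlen, ← Set.ncard_coe_finset]
  apply Set.ncard_le_ncard _ (Set.toFinite _)
  intro e he
  rw [Finset.mem_coe, List.mem_toFinset, hT, List.mem_map] at he
  obtain ⟨p, hp, rfl⟩ := he
  rw [List.mem_filter] at hp
  have hadj := b2_adj p hp.1
  refine ⟨hadj, ?_⟩
  have hx : σ p.1 ≠ σ p.2 := by
    have := hp.2
    simpa using this
  by_cases h1 : p.1 ∈ S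
  · have h1' := (hσ p.1).2 h1
    have h2 : p.2 ∉ S := by
      intro h2
      exact hx (h1'.trans ((hσ p.2).2 h2).symm)
    exact ⟨p.1, h1, p.2, h2, rfl⟩
  · have h1' : σ p.1 = false := by
      rw [← Bool.not_eq_true, hσ]; exact h1
    have h2 : p.2 ∈ S := by
      rw [← hσ]
      cases h : σ p.2
      · exact absurd (h1'.trans h.symm) hx
      · rfl
    exact ⟨p.2, h2, p.1, h1, Sym2.eq_swap⟩

theorem b2_subsingleton (S : Set (Fin 18)) (σ : Fin 18 → Bool) (hσ : ∀ v, σ v = true ↔ v ∈ S)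
    (h : ∑ v, (σ v).toNat ≤ 1) : S.Subsingleton := by
  intro x hx y hy
  by_contra hne
  have h1 : ∑ v ∈ ({x, y} : Finset (Fin 18)), (σ v).toNat ≤ ∑ v, (σ v).toNat :=
    Finset.sum_le_sum_of_subset (Finset.subset_univ _)
  rw [Finset.sum_pair hne, (hσ x).2 hx, (hσ y).2 hy] at h1
  simp only [Bool.toNat_true] at h1
  omega

theorem b2_acyclic {V : Type*} (G : SimpleGraph V) (S : Set V) (h : S.Subsingleton) :
    (G.induce S).IsAcyclic := by
  haveI : Subsingleton S := ⟨fun a b => Subtype.ext (h a.2 b.2)⟩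
  exact IsAcyclic.of_subsingleton

theorem b2_sum (σ : Fin 18 → Bool) : ∑ v, (σ v).toNat = (σ 0).toNat + (σ 1).toNat + (σ 2).toNat + (σ 3).toNat + (σ 4).toNat + (σ 5).toNat + (σ 6).toNat + (σ 7).toNat + (σ 8).toNat + (σ 9).toNat + (σ 10).toNat + (σ 11).toNat + (σ 12).toNat + (σ 13).toNat + (σ 14).toNat + (σ 15).toNat + (σ 16).toNat + (σ 17).toNat := by
  simp only [Fin.sum_univ_succ, Fin.sum_univ_zero, add_zero, Nat.add_assoc]
  rfl

theorem blan_cyc : IsCyclicallyFourEdgeConnected blan := by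
  classical
  intro S h1 h2
  have hσ : ∀ v, (fun v => decide (v ∈ S)) v = true ↔ v ∈ S := fun v => by simp
  generalize (fun v => decide (v ∈ S)) = σ at hσ
  rcases bcut σ with h | h | h
  · refine le_trans ?_ (b2_cut S σ hσ)
    refine le_trans h (le_of_eq ?_)
    simp only [bList, List.map_cons, List.map_nil, List.sum_cons, List.sum_nil, add_zero,
      Nat.add_assoc]
  · rw [← b2_sum] at h
    exact absurd (b2_acyclic blan S (b2_subsingleton S σ hσ h)) h1
  · rw [← b2_sum] at h
    have h3 : ∑ v, (σ v).toNat + ∑ v, (!σ v).toNat = 18 := by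
      rw [← Finset.sum_add_distrib]
      have : ∀ v ∈ (Finset.univ : Finset (Fin 18)), (σ v).toNat + (!σ v).toNat = 1 := by
        intro v _
        cases σ v <;> rfl
      rw [Finset.sum_congr rfl this]
      simp
    have h4 : ∑ v, (!σ v).toNat ≤ 1 := by omega
    refine absurd (b2_acyclic blan Sᶜ (b2_subsingleton Sᶜ (fun v => !σ v) ?_ h4)) h2
    intro v
    rw [Set.mem_compl_iff, ← hσ v]
    simp

end Pool.Agent.Lib.H84T
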