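import Pool.Agent.Lib.H84T.Blan1

/-!
# An eulerian weight on the Blanusa snark without a cycle cover
-/

set_option autoImplicit false

namespace Pool.Agent.Lib.H84T

open SimpleGraph

/-- the perfect matching on which the uncoverable weight equals `2` -/
def bmEdges : Finset (Sym2 (Fin 18)) :=
  {s(0,5), s(1,6), s(2,7), s(3,8), s(4,9), s(10,11), s(12,17), s(13,15), s(14,16)}

/-- the uncoverable weight -/
def w1 (e : Sym2 (Fin 18)) : ℕ := if e ∈ bmEdges then 2 else 1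

theorem b3_labels {ι : Type*} (l0_4 l0_13 l1_2 l1_12 l2_3 l3_4 l5_8 l5_10 l6_8 l6_9 l7_9 l7_14 l10_15 l11_12 l11_16 l13_16 l14_17 l15_17 : ι)
    (n0 : l0_4 ≠ l0_13)
    (n1 : l1_2 ≠ l1_12)
    (n2 : l1_2 ≠ l2_3)
    (n3 : l2_3 ≠ l3_4)
    (n4 : l0_4 ≠ l3_4)
    (n5 : l5_8 ≠ l5_10)
    (n6 : l6_8 ≠ l6_9)
    (n7 : l7_9 ≠ l7_14)
    (n8 : l5_8 ≠ l6_8)
    (n9 : l6_9 ≠ l7_9)
    (n10 : l5_10 ≠ l10_15)
    (n11 : l11_12 ≠ l11_16)
    (n12 : l1_12 ≠ l11_12)
    (n13 : l0_13 ≠ l13_16)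
    (n14 : l7_14 ≠ l14_17)
    (n15 : l10_15 ≠ l15_17)
    (n16 : l11_16 ≠ l13_16)
    (n17 : l14_17 ≠ l15_17)
    (e0 : (l0_4 = l5_8 ∧ l0_13 = l5_10) ∨ (l0_4 = l5_10 ∧ l0_13 = l5_8))
    (e1 : (l1_2 = l6_8 ∧ l1_12 = l6_9) ∨ (l1_2 = l6_9 ∧ l1_12 = l6_8))
    (e2 : (l1_2 = l7_9 ∧ l2_3 = l7_14) ∨ (l1_2 = l7_14 ∧ l2_3 = l7_9))
    (e3 : (l2_3 = l5_8 ∧ l3_4 = l6_8) ∨ (l2_3 = l6_8 ∧ l3_4 = l5_8))
    (e4 : (l0_4 = l6_9 ∧ l3_4 = l7_9) ∨ (l0_4 = l7_9 ∧ l3_4 = l6_9))
    (e5 : (l5_10 = l11_12 ∧ l10_15 = l11_16) ∨ (l5_10 = l11_16 ∧ l10_15 = l11_12))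
    (e6 : (l1_12 = l14_17 ∧ l11_12 = l15_17) ∨ (l1_12 = l15_17 ∧ l11_12 = l14_17))
    (e7 : (l0_13 = l10_15 ∧ l13_16 = l15_17) ∨ (l0_13 = l15_17 ∧ l13_16 = l10_15))
    (e8 : (l7_14 = l11_16 ∧ l14_17 = l13_16) ∨ (l7_14 = l13_16 ∧ l14_17 = l11_16)) : False := by
  grind

/-- local parity of a circuit at a vertex of degree three -/
theorem b3_parity {G : SimpleGraph (Fin 18)} (C : G.Subgraph) (hC : IsCircuit C)
    (v x y z : Fin 18) (hxy : x ≠ y) (hxz : x ≠ z) (hyz : y ≠ z)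
    (hN : ∀ t, G.Adj v t → t = x ∨ t = y ∨ t = z) :
    C.Adj v z ↔ ¬ (C.Adj v x ↔ C.Adj v y) := by
  classical
  have h := hC.ncard_even v
  have hsub : C.neighborSet v ⊆ {x, y, z} := by
    intro t ht
    simpa using hN t (C.neighborSet_subset v ht)
  have hs : C.neighborSet v = ((({x, y, z} : Finset (Fin 18)).filter fun t => C.Adj v t) : Set (Fin 18)) := by
    ext t
    simp only [Subgraph.mem_neighborSet, Finset.coe_filter, Finset.mem_insert,
      Finset.mem_singleton, Set.mem_ofPred_eq]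
    constructor
    · intro ht; exact ⟨by simpa using hsub ht, ht⟩
    · exact fun ht => ht.2
  rw [hs, Set.ncard_coe_finset] at h
  rw [Finset.filter_insert, Finset.filter_insert, Finset.filter_singleton] at h
  by_cases h1 : C.Adj v x <;> by_cases h2 : C.Adj v y <;> by_cases h3 : C.Adj v z <;>
    simp [h1, h2, h3, hxy, hxz, hyz] at h ⊢

theorem b3_not_coverable : ¬ IsCycleCoverable blan w1 := by
  classical
  rintro ⟨F, hF, hw⟩
  obtain ⟨L, hL⟩ : ∃ L : List blan.Subgraph, F = (L : Multiset blan.Subgraph) :=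
    ⟨F.toList, (Multiset.coe_toList F).symm⟩
  subst hL
  let I : Sym2 (Fin 18) → Finset (Fin L.length) :=
    fun e => Finset.univ.filter fun i => e ∈ (L.get i).edgeSet
  have hcirc : ∀ i : Fin L.length, IsCircuit (L.get i) := by
    intro i
    apply hF
    rw [Multiset.mem_coe]
    exact List.get_mem L i
  have hI : ∀ e ∈ blan.edgeSet, (I e).card = w1 e := by
    intro e he
    rw [← hw e he, Multiset.filter_coe, Multiset.coe_card]
    exact card_index L (fun C => e ∈ C.edgeSet)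
  have hpar : ∀ v x y z : Fin 18, x ≠ y → x ≠ z → y ≠ z →
      (∀ t, blan.Adj v t → t = x ∨ t = y ∨ t = z) →
      ∀ i, i ∈ I s(v, z) ↔ ¬ (i ∈ I s(v, x) ↔ i ∈ I s(v, y)) := by
    intro v x y z hxy hxz hyz hN i
    have := b3_parity (L.get i) (hcirc i) v x y z hxy hxz hyz hN
    simpa [I, Subgraph.mem_edgeSet] using this
  have hlab : ∀ e : Sym2 (Fin 18), e ∈ blan.edgeSet → w1 e = 1 → ∃ a, I e = {a} := by
    intro e he h1
    rw [← Finset.card_eq_one, hI e he, h1]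
  have key : ∀ v x y z : Fin 18, x ≠ y → x ≠ z → y ≠ z →
      (∀ t, blan.Adj v t → t = x ∨ t = y ∨ t = z) → blan.Adj v z → w1 s(v,z) = 2 →
      ∀ a b, I s(v, x) = {a} → I s(v, y) = {b} → a ≠ b ∧ I s(v, z) = {a, b} := by
    intro v x y z hxy hxz hyz hN hvz hz a b ha hb
    exact pair_aux _ _ _ a b ha hb (by rw [hI _ hvz, hz]) (hpar v x y z hxy hxz hyz hN)
  have sw : ∀ x y : Fin 18, s(x, y) = s(y, x) := fun x y => Sym2.eq_swap
  obtain ⟨l0_4, h0_4⟩ := hlab s(0,4) (by decide) (by decide)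
  obtain ⟨l0_13, h0_13⟩ := hlab s(0,13) (by decide) (by decide)
  obtain ⟨l1_2, h1_2⟩ := hlab s(1,2) (by decide) (by decide)
  obtain ⟨l1_12, h1_12⟩ := hlab s(1,12) (by decide) (by decide)
  obtain ⟨l2_3, h2_3⟩ := hlab s(2,3) (by decide) (by decide)
  obtain ⟨l3_4, h3_4⟩ := hlab s(3,4) (by decide) (by decide)
  obtain ⟨l5_8, h5_8⟩ := hlab s(5,8) (by decide) (by decide)
  obtain ⟨l5_10, h5_10⟩ := hlab s(5,10) (by decide) (by decide)
  obtain ⟨l6_8, h6_8⟩ := hlab s(6,8) (by decide) (by decide)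
  obtain ⟨l6_9, h6_9⟩ := hlab s(6,9) (by decide) (by decide)
  obtain ⟨l7_9, h7_9⟩ := hlab s(7,9) (by decide) (by decide)
  obtain ⟨l7_14, h7_14⟩ := hlab s(7,14) (by decide) (by decide)
  obtain ⟨l10_15, h10_15⟩ := hlab s(10,15) (by decide) (by decide)
  obtain ⟨l11_12, h11_12⟩ := hlab s(11,12) (by decide) (by decide)
  obtain ⟨l11_16, h11_16⟩ := hlab s(11,16) (by decide) (by decide)
  obtain ⟨l13_16, h13_16⟩ := hlab s(13,16) (by decide) (by decide)
  obtain ⟨l14_17, h14_17⟩ := hlab s(14,17) (by decide) (by decide)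
  obtain ⟨l15_17, h15_17⟩ := hlab s(15,17) (by decide) (by decide)
  obtain ⟨n0, m0⟩ := key 0 4 13 5 (by decide) (by decide) (by decide) (by decide) (by decide)
    (by decide) l0_4 l0_13 h0_4 h0_13
  obtain ⟨n1, m1⟩ := key 1 2 12 6 (by decide) (by decide) (by decide) (by decide) (by decide)
    (by decide) l1_2 l1_12 h1_2 h1_12
  obtain ⟨n2, m2⟩ := key 2 1 3 7 (by decide) (by decide) (by decide) (by decide) (by decide)
    (by decide) l1_2 l2_3 (by rw [sw]; exact h1_2) h2_3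
  obtain ⟨n3, m3⟩ := key 3 2 4 8 (by decide) (by decide) (by decide) (by decide) (by decide)
    (by decide) l2_3 l3_4 (by rw [sw]; exact h2_3) h3_4
  obtain ⟨n4, m4⟩ := key 4 0 3 9 (by decide) (by decide) (by decide) (by decide) (by decide)
    (by decide) l0_4 l3_4 (by rw [sw]; exact h0_4) (by rw [sw]; exact h3_4)
  obtain ⟨n5, m5⟩ := key 5 8 10 0 (by decide) (by decide) (by decide) (by decide) (by decide)
    (by decide) l5_8 l5_10 h5_8 h5_10
  obtain ⟨n6, m6⟩ := key 6 8 9 1 (by decide) (by decide) (by decide) (by decide) (by decide)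
    (by decide) l6_8 l6_9 h6_8 h6_9
  obtain ⟨n7, m7⟩ := key 7 9 14 2 (by decide) (by decide) (by decide) (by decide) (by decide)
    (by decide) l7_9 l7_14 h7_9 h7_14
  obtain ⟨n8, m8⟩ := key 8 5 6 3 (by decide) (by decide) (by decide) (by decide) (by decide)
    (by decide) l5_8 l6_8 (by rw [sw]; exact h5_8) (by rw [sw]; exact h6_8)
  obtain ⟨n9, m9⟩ := key 9 6 7 4 (by decide) (by decide) (by decide) (by decide) (by decide)
    (by decide) l6_9 l7_9 (by rw [sw]; exact h6_9) (by rw [sw]; exact h7_9)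
  obtain ⟨n10, m10⟩ := key 10 5 15 11 (by decide) (by decide) (by decide) (by decide) (by decide)
    (by decide) l5_10 l10_15 (by rw [sw]; exact h5_10) h10_15
  obtain ⟨n11, m11⟩ := key 11 12 16 10 (by decide) (by decide) (by decide) (by decide) (by decide)
    (by decide) l11_12 l11_16 h11_12 h11_16
  obtain ⟨n12, m12⟩ := key 12 1 11 17 (by decide) (by decide) (by decide) (by decide) (by decide)
    (by decide) l1_12 l11_12 (by rw [sw]; exact h1_12) (by rw [sw]; exact h11_12)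
  obtain ⟨n13, m13⟩ := key 13 0 16 15 (by decide) (by decide) (by decide) (by decide) (by decide)
    (by decide) l0_13 l13_16 (by rw [sw]; exact h0_13) h13_16
  obtain ⟨n14, m14⟩ := key 14 7 17 16 (by decide) (by decide) (by decide) (by decide) (by decide)
    (by decide) l7_14 l14_17 (by rw [sw]; exact h7_14) h14_17
  obtain ⟨n15, m15⟩ := key 15 10 17 13 (by decide) (by decide) (by decide) (by decide) (by decide)
    (by decide) l10_15 l15_17 (by rw [sw]; exact h10_15) h15_17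
  obtain ⟨n16, m16⟩ := key 16 11 13 14 (by decide) (by decide) (by decide) (by decide) (by decide)
    (by decide) l11_16 l13_16 (by rw [sw]; exact h11_16) (by rw [sw]; exact h13_16)
  obtain ⟨n17, m17⟩ := key 17 14 15 12 (by decide) (by decide) (by decide) (by decide) (by decide)
    (by decide) l14_17 l15_17 (by rw [sw]; exact h14_17) (by rw [sw]; exact h15_17)
  have pr : ∀ a b c d : Fin L.length, ({a, b} : Finset (Fin L.length)) = {c, d} → a ≠ b →
      (a = c ∧ b = d) ∨ (a = d ∧ b = c) := by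
    intro a b c d h hne
    have h1 : a ∈ ({c, d} : Finset (Fin L.length)) := h ▸ (by simp)
    have h2 : b ∈ ({c, d} : Finset (Fin L.length)) := h ▸ (by simp)
    simp only [Finset.mem_insert, Finset.mem_singleton] at h1 h2
    grind
  rw [sw] at m5 m6 m7 m8 m9 m11 m17 m15 m16
  exact b3_labels l0_4 l0_13 l1_2 l1_12 l2_3 l3_4 l5_8 l5_10 l6_8 l6_9 l7_9 l7_14 l10_15 l11_12 l11_16 l13_16 l14_17 l15_17
    n0 n1 n2 n3 n4 n5 n6 n7 n8 n9 n10 n11 n12 n13 n14 n15 n16 n17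
    (pr _ _ _ _ (m0.symm.trans m5) n0)
    (pr _ _ _ _ (m1.symm.trans m6) n1)
    (pr _ _ _ _ (m2.symm.trans m7) n2)
    (pr _ _ _ _ (m3.symm.trans m8) n3)
    (pr _ _ _ _ (m4.symm.trans m9) n4)
    (pr _ _ _ _ (m10.symm.trans m11) n10)
    (pr _ _ _ _ (m12.symm.trans m17) n12)
    (pr _ _ _ _ (m13.symm.trans m15) n13)
    (pr _ _ _ _ (m14.symm.trans m16) n14)

theorem b3_eulerian : IsEulerianWeight blan w1 := by
  refine ⟨?_, ?_⟩
  · intro e _
    unfold w1
    split_ifs <;> simp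
  · apply even_cut
    decide +kernel

end Pool.Agent.Lib.H84T
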