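import Pool.Agent.Lib.H84T.Blan1

/-!
# Cycle cover and postman tour of length 36 of the Blanusa snark
-/

set_option autoImplicit false

namespace Pool.Agent.Lib.H84T

open SimpleGraph

def d1 : blan.Walk 0 0 :=
  .cons (v := 4) (by decide) <|
  .cons (v := 9) (by decide) <|
  .cons (v := 6) (by decide) <|
  .cons (v := 8) (by decide) <|
  .cons (v := 5) (by decide) <|
  .cons (v := 0) (by decide) .nil

def d2 : blan.Walk 0 0 :=
  .cons (v := 5) (by decide) <|
  .cons (v := 10) (by decide) <|
  .cons (v := 11) (by decide) <|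
  .cons (v := 16) (by decide) <|
  .cons (v := 13) (by decide) <|
  .cons (v := 0) (by decide) .nil

def d3 : blan.Walk 4 4 :=
  .cons (v := 9) (by decide) <|
  .cons (v := 7) (by decide) <|
  .cons (v := 14) (by decide) <|
  .cons (v := 17) (by decide) <|
  .cons (v := 15) (by decide) <|
  .cons (v := 10) (by decide) <|
  .cons (v := 11) (by decide) <|
  .cons (v := 12) (by decide) <|
  .cons (v := 1) (by decide) <|
  .cons (v := 2) (by decide) <|
  .cons (v := 3) (by decide) <|
  .cons (v := 4) (by decide) .nil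

def d4 : blan.Walk 6 6 :=
  .cons (v := 8) (by decide) <|
  .cons (v := 3) (by decide) <|
  .cons (v := 2) (by decide) <|
  .cons (v := 7) (by decide) <|
  .cons (v := 14) (by decide) <|
  .cons (v := 16) (by decide) <|
  .cons (v := 13) (by decide) <|
  .cons (v := 15) (by decide) <|
  .cons (v := 17) (by decide) <|
  .cons (v := 12) (by decide) <|
  .cons (v := 1) (by decide) <|
  .cons (v := 6) (by decide) .nil

/-- `d1` with `d3` inserted at `4` and `d4` inserted at `6`, followed by `d2`. -/
def btour : blan.Walk 0 0 :=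
  .cons (v := 4) (by decide) <| d3.append <|
  .cons (v := 9) (by decide) <| .cons (v := 6) (by decide) <| d4.append <|
  .cons (v := 8) (by decide) <| .cons (v := 5) (by decide) <| .cons (v := 0) (by decide) <| d2

theorem d1_cycle : d1.IsCycle := by
  rw [Walk.isCycle_def, Walk.isTrail_def]
  refine ⟨by decide +kernel, by simp [d1], by decide +kernel⟩

theorem d2_cycle : d2.IsCycle := by
  rw [Walk.isCycle_def, Walk.isTrail_def]
  refine ⟨by decide +kernel, by simp [d2], by decide +kernel⟩

theorem d3_cycle : d3.IsCycle := by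
  rw [Walk.isCycle_def, Walk.isTrail_def]
  refine ⟨by decide +kernel, by simp [d3], by decide +kernel⟩

theorem d4_cycle : d4.IsCycle := by
  rw [Walk.isCycle_def, Walk.isTrail_def]
  refine ⟨by decide +kernel, by simp [d4], by decide +kernel⟩

theorem b4_ncard {G : SimpleGraph (Fin 18)} {u : Fin 18} {p : G.Walk u u} (hp : p.IsCycle) :
    p.toSubgraph.edgeSet.ncard = p.length := by
  classical
  rw [Walk.edgeSet_toSubgraph]
  have : p.edgeSet = (p.edges.toFinset : Set (Sym2 (Fin 18))) := by
    ext e; simp
  rw [this, Set.ncard_coe_finset, List.toFinset_card_of_nodup hp.edges_nodup, Walk.length_edges]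

theorem b4_all : ∀ e ∈ bEdges, e ∈ btour.edges ∧
    (e ∈ d1.edges ∨ e ∈ d2.edges ∨ e ∈ d3.edges ∨ e ∈ d4.edges) := by decide +kernel

theorem b4_edge {e : Sym2 (Fin 18)} (he : e ∈ blan.edgeSet) : e ∈ bEdges := by
  rw [blan, SimpleGraph.edgeSet_fromEdgeSet] at he
  exact_mod_cast he.1

theorem b4_postman : 36 ∈ postmanLengths blan := by
  refine ⟨0, btour, ?_, ?_⟩
  · intro e he
    exact (b4_all e (b4_edge he)).1
  · decide +kernel

theorem b4_cover : 36 ∈ coverLengths blan := by
  refine ⟨{d1.toSubgraph, d2.toSubgraph, d3.toSubgraph, d4.toSubgraph}, ?_, ?_, ?_⟩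
  · intro C hC
    simp only [Multiset.insert_eq_cons, Multiset.mem_cons, Multiset.mem_singleton] at hC
    rcases hC with rfl | rfl | rfl | rfl
    · exact .of_isCycle d1_cycle
    · exact .of_isCycle d2_cycle
    · exact .of_isCycle d3_cycle
    · exact .of_isCycle d4_cycle
  · intro e he
    rcases (b4_all e (b4_edge he)).2 with h | h | h | h
    · exact ⟨d1.toSubgraph, by simp, by simpa [Walk.mem_edges_toSubgraph] using h⟩
    · exact ⟨d2.toSubgraph, by simp, by simpa [Walk.mem_edges_toSubgraph] using h⟩
    · exact ⟨d3.toSubgraph, by simp, by simpa [Walk.mem_edges_toSubgraph] using h⟩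
    · exact ⟨d4.toSubgraph, by simp, by simpa [Walk.mem_edges_toSubgraph] using h⟩
  · simp only [Multiset.insert_eq_cons, Multiset.map_cons, Multiset.map_singleton,
      Multiset.sum_cons, Multiset.sum_singleton, b4_ncard d1_cycle, b4_ncard d2_cycle,
      b4_ncard d3_cycle, b4_ncard d4_cycle]
    decide +kernel

theorem b4_deg : ∀ v, blan.degree v = 3 := by decide +kernel

theorem b4_CPP : CPP blan = 36 := by
  apply le_antisymm (Nat.sInf_le b4_postman)
  apply le_csInf ⟨36, b4_postman⟩
  rintro L ⟨u, p, hp, rfl⟩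
  have := walk_lower b4_deg p hp
  simpa using this

theorem b4_SCC : SCC blan = 36 := by
  apply le_antisymm (Nat.sInf_le b4_cover)
  apply le_csInf ⟨36, b4_cover⟩
  rintro L ⟨F, hF, hc, rfl⟩
  have := cover_lower b4_deg F hF hc
  simpa using this

end Pool.Agent.Lib.H84T
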