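import Mathlib

/-!
# Shortest cycle covers versus Chinese postman tours (MP_b9ebd9_co, Q1): disproof

Q1 asks whether every `3`-connected graph `G` with `SCC(G) = CPP(G)` has the cycle cover property.
We show that the Tietze graph (the Petersen graph with one vertex replaced by a triangle) is a
counterexample: it is cubic and `3`-connected, `SCC = CPP = 24`, but the weight which is `2` on a
suitable perfect matching and `1` elsewhere is eulerian and admits no cycle cover.
-/

set_option autoImplicit false
set_option linter.unusedSectionVars false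

namespace Pool.Agent.Lib.H84T

open SimpleGraph

section Defs

variable {V : Type*}

/-- A cycle (circuit) of `G`: a connected `2`-regular subgraph. -/
def IsCircuit {G : SimpleGraph V} (C : G.Subgraph) : Prop :=
  C.Connected ∧ ∀ v ∈ C.verts, (C.neighborSet v).ncard = 2

/-- Lengths of the closed walks of `G` that traverse every edge at least once. -/
def postmanLengths (G : SimpleGraph V) : Set ℕ :=
  {L | ∃ (u : V) (p : G.Walk u u), (∀ e ∈ G.edgeSet, e ∈ p.edges) ∧ p.length = L}

/-- `CPP(G)`: the minimum length of a closed walk traversing every edge at least once. -/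
noncomputable def CPP (G : SimpleGraph V) : ℕ := sInf (postmanLengths G)

/-- Total lengths `∑_{C ∈ F} |E(C)|` of the families `F` of cycles such that every edge of `G`
lies in at least one member of `F`. -/
def coverLengths (G : SimpleGraph V) : Set ℕ :=
  {L | ∃ F : Multiset G.Subgraph, (∀ C ∈ F, IsCircuit C) ∧
    (∀ e ∈ G.edgeSet, ∃ C ∈ F, e ∈ C.edgeSet) ∧
    (F.map fun C => C.edgeSet.ncard).sum = L}

/-- `SCC(G)`: the minimum total length of a cycle cover. -/
noncomputable def SCC (G : SimpleGraph V) : ℕ := sInf (coverLengths G)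

/-- `G` is `3`-connected: it has more than three vertices, and it stays connected after deleting
any set of fewer than three vertices. -/
def IsThreeConnected (G : SimpleGraph V) : Prop :=
  3 < Nat.card V ∧ ∀ S : Finset V, S.card < 3 → (G.induce {v | v ∉ S}).Connected

/-- The edge cut of `S`: the set of edges of `G` between `S` and its complement. -/
def edgeCut (G : SimpleGraph V) (S : Set V) : Set (Sym2 V) :=
  {e | e ∈ G.edgeSet ∧ ∃ a ∈ S, ∃ b ∉ S, e = s(a, b)}

/-- `w : E(G) → {1,2}` is eulerian: every edge cut has even total weight. -/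
def IsEulerianWeight (G : SimpleGraph V) (w : Sym2 V → ℕ) : Prop :=
  (∀ e ∈ G.edgeSet, w e = 1 ∨ w e = 2) ∧ ∀ S : Set V, Even (∑ᶠ e ∈ edgeCut G S, w e)

open Classical in
/-- `G` is cycle `w`-coverable: there is a family (multiset) of cycles such that each edge `e`
lies in exactly `w e` members. -/
def IsCycleCoverable (G : SimpleGraph V) (w : Sym2 V → ℕ) : Prop :=
  ∃ F : Multiset G.Subgraph, (∀ C ∈ F, IsCircuit C) ∧
    ∀ e ∈ G.edgeSet, (F.filter fun C => e ∈ C.edgeSet).card = w e

/-- The cycle cover property: `G` is cycle `w`-coverable for every eulerian `w : E(G) → {1,2}`. -/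
def HasCycleCoverProperty (G : SimpleGraph V) : Prop :=
  ∀ w : Sym2 V → ℕ, IsEulerianWeight G w → IsCycleCoverable G w

end Defs

section General

variable {V : Type*} [Fintype V] [DecidableEq V] {G : SimpleGraph V}

theorem IsCircuit.ncard_even {C : G.Subgraph} (h : IsCircuit C) (v : V) :
    (C.neighborSet v).ncard = 0 ∨ (C.neighborSet v).ncard = 2 := by
  by_cases hv : v ∈ C.verts
  · exact Or.inr (h.2 v hv)
  · left
    have : C.neighborSet v = ∅ := by
      ext x
      simp only [Subgraph.mem_neighborSet, Set.mem_empty_iff_false, iff_false]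
      intro hx
      exact hv hx.fst_mem
    simp [this]

/-- handshake for a subgraph -/
theorem two_mul_ncard_edgeSet (C : G.Subgraph) :
    ∑ v, (C.neighborSet v).ncard = 2 * C.edgeSet.ncard := by
  classical
  have h := C.spanningCoe.sum_degrees_eq_twice_card_edges
  have h1 : ∀ v, C.spanningCoe.degree v = (C.neighborSet v).ncard := by
    intro v
    rw [← SimpleGraph.card_neighborSet_eq_degree, Set.ncard_eq_toFinset_card']
    simp only [Set.toFinset_card]
    apply Fintype.card_congr
    exact Equiv.refl _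
  have h2 : (C.spanningCoe.edgeFinset).card = C.edgeSet.ncard := by
    rw [← Subgraph.edgeSet_spanningCoe, Set.ncard_eq_toFinset_card']
    congr
  rw [← h2, ← h]
  exact Finset.sum_congr rfl (fun v _ => (h1 v).symm)

theorem sum_neighbor_eq (F : Multiset G.Subgraph) :
    ∑ v, (F.map fun C => (C.neighborSet v).ncard).sum
      = 2 * (F.map fun C => C.edgeSet.ncard).sum := by
  induction F using Multiset.induction_on with
  | empty => simp
  | cons C F ih =>
    simp only [Multiset.map_cons, Multiset.sum_cons, Finset.sum_add_distrib, ih, mul_add,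
      two_mul_ncard_edgeSet]

theorem even_sum_neighbor (F : Multiset G.Subgraph) (hF : ∀ C ∈ F, IsCircuit C) (v : V) :
    Even (F.map fun C => (C.neighborSet v).ncard).sum := by
  induction F using Multiset.induction_on with
  | empty => simp
  | cons C F ih =>
    simp only [Multiset.map_cons, Multiset.sum_cons]
    have h1 := (hF C (Multiset.mem_cons_self C F)).ncard_even v
    have h2 := ih (fun D hD => hF D (Multiset.mem_cons_of_mem hD))
    rcases h1 with h1 | h1 <;> rw [h1] <;> simp [Nat.even_add, h2]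

theorem card_union_le (F : Multiset G.Subgraph) (v : V) :
    ({x | ∃ C ∈ F, C.Adj v x} : Set V).ncard ≤ (F.map fun C => (C.neighborSet v).ncard).sum := by
  induction F using Multiset.induction_on with
  | empty => simp
  | cons C F ih =>
    simp only [Multiset.map_cons, Multiset.sum_cons]
    have : ({x | ∃ D ∈ C ::ₘ F, D.Adj v x} : Set V)
        = C.neighborSet v ∪ {x | ∃ D ∈ F, D.Adj v x} := by
      ext x
      simp [Subgraph.mem_neighborSet]
    rw [this]
    exact (Set.ncard_union_le _ _).trans (Nat.add_le_add_left ih _)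

/-- In a graph all of whose degrees are `3`, every cycle cover has total length at least `2|V|`. -/
theorem cover_lower [DecidableRel G.Adj] (hG : ∀ v, G.degree v = 3) (F : Multiset G.Subgraph)
    (hF : ∀ C ∈ F, IsCircuit C) (hc : ∀ e ∈ G.edgeSet, ∃ C ∈ F, e ∈ C.edgeSet) :
    2 * Fintype.card V ≤ (F.map fun C => C.edgeSet.ncard).sum := by
  have h4 : ∀ v : V, 4 ≤ (F.map fun C => (C.neighborSet v).ncard).sum := by
    intro v
    have he := even_sum_neighbor F hF v
    have h3 : 3 ≤ (F.map fun C => (C.neighborSet v).ncard).sum := by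
      refine le_trans ?_ (card_union_le F v)
      rw [← hG v, ← SimpleGraph.card_neighborSet_eq_degree, ← Set.toFinset_card,
        ← Set.ncard_eq_toFinset_card']
      apply Set.ncard_le_ncard _ (Set.toFinite _)
      intro x hx
      obtain ⟨C, hC, hCe⟩ := hc s(v, x) hx
      exact ⟨C, hC, hCe⟩
    rcases he with ⟨k, hk⟩
    omega
  have hs : ∑ _v : V, 4 ≤ ∑ v, (F.map fun C => (C.neighborSet v).ncard).sum :=
    Finset.sum_le_sum (fun v _ => h4 v)
  rw [sum_neighbor_eq] at hs
  simp only [Finset.sum_const, Finset.card_univ, smul_eq_mul] at hs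
  omega

/-- A closed walk meets every vertex an even number of times (counting edge traversals). -/
theorem even_countP {u v : V} (p : G.Walk u v) (x : V) :
    Even (p.edges.countP fun e => x ∈ e) ↔ (u ≠ v → x ≠ u ∧ x ≠ v) := by
  induction p with
  | nil => simp
  | cons huv p ih =>
    simp only [List.countP_cons, Ne, Walk.edges_cons, Sym2.mem_iff]
    split_ifs with h
    · rw [decide_eq_true_eq] at h
      obtain (rfl | rfl) := h
      · rw [Nat.even_add_one, ih]
        simp only [huv.ne, imp_false, Ne, not_false_iff, true_and, not_forall,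
          Classical.not_not, exists_prop, not_true, false_and,
          and_iff_right_iff_imp]
        rintro rfl rfl
        exact G.loopless.irrefl _ huv
      · have := huv.ne; grind
    · grind

theorem sum_countP {u v : V} (p : G.Walk u v) :
    ∑ x : V, (p.edges.countP fun e => x ∈ e) = 2 * p.length := by
  induction p with
  | nil => simp
  | @cons a b c huv p ih =>
    simp only [List.countP_cons, Walk.edges_cons, Sym2.mem_iff, Walk.length_cons,
      Finset.sum_add_distrib, ih]
    have : ∑ x : V, (if decide (x = a ∨ x = b) = true then 1 else 0) = 2 := by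
      simp only [decide_eq_true_eq]
      rw [← Finset.card_filter]
      have : (Finset.univ.filter fun x => x = a ∨ x = b) = {a, b} := by
        ext; simp
      rw [this, Finset.card_pair huv.ne]
    rw [this]; ring

theorem walk_lower [DecidableRel G.Adj] (hG : ∀ v, G.degree v = 3) {u : V} (p : G.Walk u u)
    (hp : ∀ e ∈ G.edgeSet, e ∈ p.edges) : 2 * Fintype.card V ≤ p.length := by
  have h4 : ∀ x : V, 4 ≤ p.edges.countP fun e => x ∈ e := by
    intro x
    have he : Even (p.edges.countP fun e => x ∈ e) := by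
      rw [even_countP]; intro h; exact absurd rfl h
    have h3 : 3 ≤ p.edges.countP fun e => x ∈ e := by
      rw [← hG x, ← SimpleGraph.card_incidenceFinset_eq_degree, List.countP_eq_length_filter]
      refine le_trans ?_ (List.toFinset_card_le _)
      apply Finset.card_le_card
      intro e he
      rw [SimpleGraph.mem_incidenceFinset] at he
      simp only [List.mem_toFinset, List.mem_filter, decide_eq_true_eq]
      exact ⟨hp e he.1, he.2⟩
    rcases he with ⟨k, hk⟩
    omega
  have hs : ∑ _x : V, 4 ≤ ∑ x : V, (p.edges.countP fun e => x ∈ e) :=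
    Finset.sum_le_sum (fun x _ => h4 x)
  rw [sum_countP] at hs
  simp only [Finset.sum_const, Finset.card_univ, smul_eq_mul] at hs
  omega

theorem IsCircuit.of_isCycle {u : V} {p : G.Walk u u} (hp : p.IsCycle) :
    IsCircuit p.toSubgraph := by
  refine ⟨p.toSubgraph_connected, ?_⟩
  intro v hv
  exact hp.ncard_neighborSet_toSubgraph_eq_two (by simpa using hv)

end General

/-- The 18 edges of the Tietze graph: a 7-cycle, a 5-cycle and a perfect matching. -/
def tEdges : Finset (Sym2 (Fin 12)) :=
  {s(0,1), s(1,2), s(2,3), s(3,4), s(4,10), s(10,11), s(0,11),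
   s(5,7), s(7,9), s(6,9), s(6,8), s(5,8),
   s(5,11), s(1,6), s(2,7), s(3,8), s(4,9), s(0,10)}

/-- The Tietze graph. -/
def tietze : SimpleGraph (Fin 12) := SimpleGraph.fromEdgeSet (tEdges : Set (Sym2 (Fin 12)))

instance : DecidableRel tietze.Adj := fun a b =>
  decidable_of_iff (s(a,b) ∈ tEdges ∧ a ≠ b) (by simp [tietze])

/-- neighbourhood bit masks -/
def tab : List ℕ := [2^1+2^11+2^10, 2^0+2^2+2^6, 2^1+2^3+2^7, 2^2+2^4+2^8, 2^3+2^10+2^9, 2^7+2^8+2^11,
  2^9+2^8+2^1, 2^5+2^9+2^2, 2^6+2^5+2^3, 2^7+2^6+2^4, 2^4+2^11+2^0, 2^10+2^0+2^5]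

def nbM (x : ℕ) : ℕ := tab.getD x 0

theorem adj_iff : ∀ x y : Fin 12, tietze.Adj x y ↔ (nbM x).testBit y = true := by
  decide

theorem nbM_lt : ∀ x : Fin 12, nbM x < 2^12 := by decide

def stepM (A R : ℕ) : ℕ :=
  (List.range 12).foldl (fun acc x => if R.testBit x then acc ||| (nbM x &&& A) else acc) R

theorem stepM_sound (P : ℕ → Prop) (A R : ℕ) (hR : ∀ y, R.testBit y = true → P y)
    (hP : ∀ x y, x < 12 → P x → (nbM x).testBit y = true → A.testBit y = true → P y) :
    ∀ y, (stepM A R).testBit y = true → P y := by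
  unfold stepM
  have : ∀ (l : List ℕ) (acc : ℕ), (∀ x ∈ l, x < 12) → (∀ y, acc.testBit y = true → P y) →
      ∀ y, (l.foldl (fun acc x => if R.testBit x then acc ||| (nbM x &&& A) else acc) acc).testBit y = true
        → P y := by
    intro l
    induction l with
    | nil => intro acc _ h; simpa using h
    | cons x l ih =>
      intro acc hl hacc
      simp only [List.foldl_cons]
      apply ih
      · intro z hz; exact hl z (List.mem_cons_of_mem _ hz)
      · intro y hy
        split_ifs at hy with hx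
        · rw [Nat.testBit_or, Nat.testBit_and, Bool.or_eq_true, Bool.and_eq_true] at hy
          rcases hy with hy | hy
          · exact hacc y hy
          · exact hP x y (hl x (by simp)) (hR x hx) hy.1 hy.2
        · exact hacc y hy
  exact this _ _ (by simp) hR

theorem stepM_iter_sound (P : ℕ → Prop) (A R : ℕ) (hR : ∀ y, R.testBit y = true → P y)
    (hP : ∀ x y, x < 12 → P x → (nbM x).testBit y = true → A.testBit y = true → P y) (n : ℕ) :
    ∀ y, ((stepM A)^[n] R).testBit y = true → P y := by
  induction n with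
  | zero => simpa using hR
  | succ n ih =>
    rw [Function.iterate_succ_apply']
    exact stepM_sound P A _ ih hP

/-- the set `S` avoided, as a mask of allowed vertices -/
def allowed (S : List ℕ) : ℕ := (List.range 12).foldl (fun acc x => if x ∈ S then acc else acc + 2^x) 0

theorem check2 : ∀ a b : Fin 12, ∃ r : Fin 12, r ≠ a ∧ r ≠ b ∧
    ((stepM (allowed [a.1,b.1]))^[8] (2^r.1)) = allowed [a.1,b.1] := by
  decide +kernel

theorem check0 : ((stepM (allowed []))^[8] (2^0)) = allowed [] := by
  decide +kernel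

theorem allowed2 : ∀ a b x : Fin 12, (allowed [a.1,b.1]).testBit x = true ↔ (x ≠ a ∧ x ≠ b) := by
  decide +kernel

theorem allowed0 : ∀ x : Fin 12, (allowed []).testBit x = true := by
  decide +kernel

theorem allowed_lt2 : ∀ a b : Fin 12, allowed [a.1,b.1] < 2^12 := by
  decide +kernel

theorem allowed_lt0 : allowed [] < 2^12 := by
  decide +kernel

theorem conn_aux (S : Finset (Fin 12)) (A : ℕ) (hA : A < 2^12) (r : Fin 12) (hr : r ∉ S)
    (hAS : ∀ x : Fin 12, A.testBit x = true ↔ x ∉ S)
    (h : ((stepM A)^[8] (2^r.1)) = A) : (tietze.induce {v | v ∉ S}).Connected := by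
  have key := stepM_iter_sound
    (fun y => ∃ (hy : y < 12) (hS : (⟨y, hy⟩ : Fin 12) ∉ S),
      (tietze.induce {v | v ∉ S}).Reachable ⟨r, hr⟩ ⟨⟨y, hy⟩, hS⟩) A (2^r.1)
    (by
      intro y hy
      rw [Nat.testBit_two_pow, decide_eq_true_eq] at hy
      subst hy
      exact ⟨r.2, hr, Reachable.refl _⟩)
    (by
      rintro x y hx ⟨hx', hxS, hreach⟩ hadj hyA
      have hy : y < 12 := by
        by_contra hcon
        have := Nat.testBit_lt_two_pow (x := A) (i := y)
          (lt_of_lt_of_le hA (Nat.pow_le_pow_right (by norm_num) (by omega)))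
        rw [this] at hyA
        exact absurd hyA (by simp)
      have hyS : (⟨y, hy⟩ : Fin 12) ∉ S := (hAS ⟨y, hy⟩).1 hyA
      refine ⟨hy, hyS, hreach.trans ?_⟩
      apply SimpleGraph.Adj.reachable
      simp only [SimpleGraph.comap_adj, Function.Embedding.subtype_apply]
      exact (adj_iff ⟨x, hx'⟩ ⟨y, hy⟩).2 hadj)
    8
  rw [h] at key
  rw [SimpleGraph.connected_iff_exists_forall_reachable]
  refine ⟨⟨r, hr⟩, ?_⟩
  rintro ⟨w, hw⟩
  obtain ⟨_, _, hreach⟩ := key w.1 ((hAS w).2 hw)
  exact hreach

theorem threeConn_aux (S : Finset (Fin 12)) (hS : S.card < 3) :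
    (tietze.induce {v | v ∉ S}).Connected := by
  have h012 : S.card = 0 ∨ S.card = 1 ∨ S.card = 2 := by omega
  rcases h012 with h | h | h
  · rw [Finset.card_eq_zero] at h
    subst h
    exact conn_aux ∅ _ allowed_lt0 0 (by simp) (fun x => by simpa using allowed0 x) check0
  · rw [Finset.card_eq_one] at h
    obtain ⟨a, rfl⟩ := h
    obtain ⟨r, h1, _, h3⟩ := check2 a a
    exact conn_aux {a} _ (allowed_lt2 a a) r (by simpa using h1)
      (fun x => by rw [allowed2 a a x]; simp) h3
  · rw [Finset.card_eq_two] at h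
    obtain ⟨a, b, _, rfl⟩ := h
    obtain ⟨r, h1, h2, h3⟩ := check2 a b
    exact conn_aux {a, b} _ (allowed_lt2 a b) r (by simp [h1, h2])
      (fun x => by rw [allowed2 a b x]; simp) h3


/-- the perfect matching on which the uncoverable weight equals `2` -/
def mEdges : Finset (Sym2 (Fin 12)) :=
  {s(5,11), s(1,6), s(2,7), s(3,8), s(4,9), s(0,10)}

/-- the uncoverable weight -/
def w0 (e : Sym2 (Fin 12)) : ℕ := if e ∈ mEdges then 2 else 1

theorem edge_iff (x y : Fin 12) : s(x, y) ∈ tietze.edgeSet ↔ tietze.Adj x y := Iff.rfl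

theorem labels {ι : Type*} (a01 a12 a23 a34 a4a aab a0b i57 i79 i69 i68 i58 : ι)
  (h1 : aab ≠ a0b) (h3 : a12 ≠ a23) (h4 : a23 ≠ a34) (h5 : a34 ≠ a4a)
  (h7 : i57 ≠ i58) (h8 : i69 ≠ i68) (h9 : i57 ≠ i79) (h10 : i68 ≠ i58)
  (e1 : (aab = i57 ∧ a0b = i58) ∨ (aab = i58 ∧ a0b = i57))
  (e2 : (a01 = i69 ∧ a12 = i68) ∨ (a01 = i68 ∧ a12 = i69))
  (e3 : (a12 = i57 ∧ a23 = i79) ∨ (a12 = i79 ∧ a23 = i57))
  (e4 : (a23 = i68 ∧ a34 = i58) ∨ (a23 = i58 ∧ a34 = i68))
  (e5 : (a34 = i79 ∧ a4a = i69) ∨ (a34 = i69 ∧ a4a = i79))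
  (e6 : (a01 = a4a ∧ a0b = aab) ∨ (a01 = aab ∧ a0b = a4a)) : False := by
  grind

theorem pair_aux {ι : Type*} [DecidableEq ι] (A B M : Finset ι) (a b : ι) (hA : A = {a})
    (hB : B = {b}) (hM : M.card = 2) (h : ∀ i, i ∈ M ↔ ¬ (i ∈ A ↔ i ∈ B)) :
    a ≠ b ∧ M = {a, b} := by
  subst hA hB
  have hab : a ≠ b := by
    rintro rfl
    have : M = ∅ := by
      ext i; rw [h i]; simp
    rw [this] at hM; simp at hM
  refine ⟨hab, ?_⟩
  ext i
  rw [h i]
  simp only [Finset.mem_singleton, Finset.mem_insert]
  constructor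
  · intro hi
    by_contra hcon
    push Not at hcon
    exact hi ⟨fun h => absurd h hcon.1, fun h => absurd h hcon.2⟩
  · rintro (rfl | rfl) hi
    · exact hab (hi.1 rfl)
    · exact hab (hi.2 rfl).symm

/-- local parity of a circuit at a vertex of degree three -/
theorem local_parity {G : SimpleGraph (Fin 12)} (C : G.Subgraph) (hC : IsCircuit C)
    (v x y z : Fin 12) (hxy : x ≠ y) (hxz : x ≠ z) (hyz : y ≠ z)
    (hN : ∀ t, G.Adj v t → t = x ∨ t = y ∨ t = z) :
    C.Adj v z ↔ ¬ (C.Adj v x ↔ C.Adj v y) := by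
  classical
  have h := hC.ncard_even v
  have hsub : C.neighborSet v ⊆ {x, y, z} := by
    intro t ht
    simpa using hN t (C.neighborSet_subset v ht)
  have hs : C.neighborSet v = ((({x, y, z} : Finset (Fin 12)).filter fun t => C.Adj v t) : Set (Fin 12)) := by
    ext t
    simp only [Subgraph.mem_neighborSet, Finset.coe_filter, Finset.mem_insert,
      Finset.mem_singleton, Set.mem_ofPred_eq]
    constructor
    · intro ht; exact ⟨by simpa using hsub ht, ht⟩
    · exact fun ht => ht.2
  rw [hs, Set.ncard_coe_finset] at h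
  rw [Finset.filter_insert, Finset.filter_insert, Finset.filter_singleton] at h
  by_cases h1 : C.Adj v x <;> by_cases h2 : C.Adj v y <;> by_cases h3 : C.Adj v z <;>
    simp [h1, h2, h3, hxy, hxz, hyz] at h ⊢


theorem card_index {α : Type*} (L : List α) (p : α → Prop) [DecidablePred p] :
    (Finset.univ.filter fun i : Fin L.length => p (L.get i)).card = (L.filter p).length := by
  rw [Finset.card_filter]
  have h := Fin.sum_univ_fun_getElem L (fun a => if p a then 1 else 0)
  simp only [List.get_eq_getElem]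
  rw [h]
  clear h
  induction L with
  | nil => simp
  | cons a L ih =>
    simp only [List.map_cons, List.sum_cons, ih, List.filter_cons]
    by_cases ha : p a <;> simp [ha, add_comm]

theorem not_coverable : ¬ IsCycleCoverable tietze w0 := by
  classical
  rintro ⟨F, hF, hw⟩
  obtain ⟨L, hL⟩ : ∃ L : List tietze.Subgraph, F = (L : Multiset tietze.Subgraph) :=
    ⟨F.toList, (Multiset.coe_toList F).symm⟩
  subst hL
  -- the index set
  let I : Sym2 (Fin 12) → Finset (Fin L.length) :=
    fun e => Finset.univ.filter fun i => e ∈ (L.get i).edgeSet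
  have hcirc : ∀ i : Fin L.length, IsCircuit (L.get i) := by
    intro i
    apply hF
    rw [Multiset.mem_coe]
    exact List.get_mem L i
  have hI : ∀ e ∈ tietze.edgeSet, (I e).card = w0 e := by
    intro e he
    rw [← hw e he, Multiset.filter_coe, Multiset.coe_card]
    exact card_index L (fun C => e ∈ C.edgeSet)
  have hpar : ∀ v x y z : Fin 12, x ≠ y → x ≠ z → y ≠ z →
      (∀ t, tietze.Adj v t → t = x ∨ t = y ∨ t = z) →
      ∀ i, i ∈ I s(v, z) ↔ ¬ (i ∈ I s(v, x) ↔ i ∈ I s(v, y)) := by
    intro v x y z hxy hxz hyz hN i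
    have := local_parity (L.get i) (hcirc i) v x y z hxy hxz hyz hN
    simpa [I, Subgraph.mem_edgeSet] using this
  -- labels of the edges of weight one
  have hlab : ∀ e : Sym2 (Fin 12), e ∈ tietze.edgeSet → w0 e = 1 → ∃ a, I e = {a} := by
    intro e he h1
    rw [← Finset.card_eq_one, hI e he, h1]
  have key : ∀ v x y z : Fin 12, x ≠ y → x ≠ z → y ≠ z →
      (∀ t, tietze.Adj v t → t = x ∨ t = y ∨ t = z) → tietze.Adj v z → w0 s(v,z) = 2 →
      ∀ a b, I s(v, x) = {a} → I s(v, y) = {b} → a ≠ b ∧ I s(v, z) = {a, b} := by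
    intro v x y z hxy hxz hyz hN hvz hz a b ha hb
    exact pair_aux _ _ _ a b ha hb (by rw [hI _ hvz, hz]) (hpar v x y z hxy hxz hyz hN)
  obtain ⟨a01, h01⟩ := hlab s(0,1) (by decide) (by decide)
  obtain ⟨a12, h12⟩ := hlab s(1,2) (by decide) (by decide)
  obtain ⟨a23, h23⟩ := hlab s(2,3) (by decide) (by decide)
  obtain ⟨a34, h34⟩ := hlab s(3,4) (by decide) (by decide)
  obtain ⟨a4a, h4a⟩ := hlab s(4,10) (by decide) (by decide)
  obtain ⟨aab, hab⟩ := hlab s(10,11) (by decide) (by decide)
  obtain ⟨a0b, h0b⟩ := hlab s(0,11) (by decide) (by decide)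
  obtain ⟨i57, h57⟩ := hlab s(5,7) (by decide) (by decide)
  obtain ⟨i79, h79⟩ := hlab s(7,9) (by decide) (by decide)
  obtain ⟨i69, h69⟩ := hlab s(6,9) (by decide) (by decide)
  obtain ⟨i68, h68⟩ := hlab s(6,8) (by decide) (by decide)
  obtain ⟨i58, h58⟩ := hlab s(5,8) (by decide) (by decide)
  have sw : ∀ x y : Fin 12, s(x, y) = s(y, x) := fun x y => Sym2.eq_swap
  -- vertices
  obtain ⟨n0, m0⟩ := key 0 1 11 10 (by decide) (by decide) (by decide) (by decide) (by decide)
    (by decide) a01 a0b h01 h0b
  obtain ⟨n10, m10⟩ := key 10 4 11 0 (by decide) (by decide) (by decide) (by decide) (by decide)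
    (by decide) a4a aab (by rw [sw]; exact h4a) hab
  obtain ⟨n11, m11⟩ := key 11 10 0 5 (by decide) (by decide) (by decide) (by decide) (by decide)
    (by decide) aab a0b (by rw [sw]; exact hab) (by rw [sw]; exact h0b)
  obtain ⟨n5, m5⟩ := key 5 7 8 11 (by decide) (by decide) (by decide) (by decide) (by decide)
    (by decide) i57 i58 h57 h58
  obtain ⟨n1, m1⟩ := key 1 0 2 6 (by decide) (by decide) (by decide) (by decide) (by decide)
    (by decide) a01 a12 (by rw [sw]; exact h01) h12
  obtain ⟨n6, m6⟩ := key 6 9 8 1 (by decide) (by decide) (by decide) (by decide) (by decide)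
    (by decide) i69 i68 h69 h68
  obtain ⟨n2, m2⟩ := key 2 1 3 7 (by decide) (by decide) (by decide) (by decide) (by decide)
    (by decide) a12 a23 (by rw [sw]; exact h12) h23
  obtain ⟨n7, m7⟩ := key 7 5 9 2 (by decide) (by decide) (by decide) (by decide) (by decide)
    (by decide) i57 i79 (by rw [sw]; exact h57) h79
  obtain ⟨n3, m3⟩ := key 3 2 4 8 (by decide) (by decide) (by decide) (by decide) (by decide)
    (by decide) a23 a34 (by rw [sw]; exact h23) h34
  obtain ⟨n8, m8⟩ := key 8 6 5 3 (by decide) (by decide) (by decide) (by decide) (by decide)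
    (by decide) i68 i58 (by rw [sw]; exact h68) (by rw [sw]; exact h58)
  obtain ⟨n4, m4⟩ := key 4 3 10 9 (by decide) (by decide) (by decide) (by decide) (by decide)
    (by decide) a34 a4a (by rw [sw]; exact h34) h4a
  obtain ⟨n9, m9⟩ := key 9 7 6 4 (by decide) (by decide) (by decide) (by decide) (by decide)
    (by decide) i79 i69 (by rw [sw]; exact h79) (by rw [sw]; exact h69)
  have pr : ∀ a b c d : Fin L.length, ({a, b} : Finset (Fin L.length)) = {c, d} → a ≠ b →
      (a = c ∧ b = d) ∨ (a = d ∧ b = c) := by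
    intro a b c d h hne
    have h1 : a ∈ ({c, d} : Finset (Fin L.length)) := h ▸ (by simp)
    have h2 : b ∈ ({c, d} : Finset (Fin L.length)) := h ▸ (by simp)
    simp only [Finset.mem_insert, Finset.mem_singleton] at h1 h2
    grind
  rw [sw] at m10 m11 m6 m7 m8 m9
  exact labels a01 a12 a23 a34 a4a aab a0b i57 i79 i69 i68 i58 n11 n2 n3 n4 n5 n6 n7 n8
    (pr _ _ _ _ (m11.symm.trans m5) n11) (pr _ _ _ _ (m1.symm.trans m6) n1)
    (pr _ _ _ _ (m2.symm.trans m7) n2) (pr _ _ _ _ (m3.symm.trans m8) n3)
    (pr _ _ _ _ (m4.symm.trans m9) n4) (pr _ _ _ _ (m0.symm.trans m10) n0)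


theorem even_cut {V : Type*} [Fintype V] [DecidableEq V] (G : SimpleGraph V) [DecidableRel G.Adj]
    (w : Sym2 V → ℕ) (hw : ∀ v, Even (∑ e ∈ G.edgeFinset, if v ∈ e then w e else 0)) (S : Set V) :
    Even (∑ᶠ e ∈ edgeCut G S, w e) := by
  classical
  have h1 : (∑ᶠ e ∈ edgeCut G S, w e) = ∑ e ∈ G.edgeFinset, if e ∈ edgeCut G S then w e else 0 := by
    rw [← Finset.sum_filter]
    apply finsum_mem_eq_sum_of_inter_support_eq
    ext e
    simp only [Set.mem_inter_iff, Function.mem_support, Finset.coe_filter, Set.mem_ofPred_eq,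
      SimpleGraph.mem_edgeFinset]
    constructor
    · rintro ⟨h1, h2⟩; exact ⟨⟨h1.1, h1⟩, h2⟩
    · rintro ⟨h1, h2⟩; exact ⟨h1.2, h2⟩
  rw [h1, ← ZMod.natCast_eq_zero_iff_even, Nat.cast_sum]
  have h2 : ∀ e ∈ G.edgeFinset, (((if e ∈ edgeCut G S then w e else 0 : ℕ)) : ZMod 2)
      = ∑ v : V, if v ∈ S then (((if v ∈ e then w e else 0 : ℕ)) : ZMod 2) else 0 := by
    intro e he
    induction e using Sym2.ind with
    | _ a b =>
    have hab : a ≠ b := by
      rw [SimpleGraph.mem_edgeFinset] at he
      exact G.ne_of_adj he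
    have hsum : (∑ v : V, if v ∈ S then (((if v ∈ s(a,b) then w s(a,b) else 0 : ℕ)) : ZMod 2) else 0)
        = (if a ∈ S then (w s(a,b) : ZMod 2) else 0) + (if b ∈ S then (w s(a,b) : ZMod 2) else 0) := by
      have : ∀ v : V, (if v ∈ S then (((if v ∈ s(a,b) then w s(a,b) else 0 : ℕ)) : ZMod 2) else 0)
          = (if v = a then (if a ∈ S then (w s(a,b) : ZMod 2) else 0) else 0)
            + (if v = b then (if b ∈ S then (w s(a,b) : ZMod 2) else 0) else 0) := by
        intro v
        by_cases hva : v = a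
        · subst hva
          simp [hab]
        · by_cases hvb : v = b
          · subst hvb
            simp [hva]
          · simp [hva, hvb]
      rw [Finset.sum_congr rfl (fun v _ => this v), Finset.sum_add_distrib]
      simp
    rw [hsum]
    have hmem : s(a, b) ∈ edgeCut G S ↔ ((a ∈ S ∧ b ∉ S) ∨ (b ∈ S ∧ a ∉ S)) := by
      rw [SimpleGraph.mem_edgeFinset] at he
      constructor
      · rintro ⟨_, x, hx, y, hy, hxy⟩
        rw [Sym2.eq_iff] at hxy
        rcases hxy with ⟨rfl, rfl⟩ | ⟨rfl, rfl⟩
        · exact Or.inl ⟨hx, hy⟩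
        · exact Or.inr ⟨hx, hy⟩
      · rintro (⟨h, h'⟩ | ⟨h, h'⟩)
        · exact ⟨he, a, h, b, h', rfl⟩
        · exact ⟨he, b, h, a, h', Sym2.eq_swap⟩
    by_cases ha : a ∈ S <;> by_cases hb : b ∈ S <;> simp [hmem, ha, hb, CharTwo.add_self_eq_zero]
  rw [Finset.sum_congr rfl h2, Finset.sum_comm]
  apply Finset.sum_eq_zero
  intro v _
  by_cases hv : v ∈ S
  · simp only [hv, if_true]
    rw [← Nat.cast_sum, ZMod.natCast_eq_zero_iff_even]
    exact hw v
  · simp [hv]

theorem w0_eulerian : IsEulerianWeight tietze w0 := by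
  refine ⟨?_, ?_⟩
  · intro e _
    unfold w0
    split_ifs <;> simp
  · apply even_cut
    decide

/-- four 6-cycles -/
def c1 : tietze.Walk 0 0 :=
  .cons (v := 1) (by decide) <| .cons (v := 2) (by decide) <| .cons (v := 3) (by decide) <|
  .cons (v := 4) (by decide) <| .cons (v := 10) (by decide) <| .cons (v := 0) (by decide) .nil

def c2 : tietze.Walk 0 0 :=
  .cons (v := 1) (by decide) <| .cons (v := 6) (by decide) <| .cons (v := 8) (by decide) <|
  .cons (v := 5) (by decide) <| .cons (v := 11) (by decide) <| .cons (v := 0) (by decide) .nil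

def c3 : tietze.Walk 2 2 :=
  .cons (v := 3) (by decide) <| .cons (v := 8) (by decide) <| .cons (v := 6) (by decide) <|
  .cons (v := 9) (by decide) <| .cons (v := 7) (by decide) <| .cons (v := 2) (by decide) .nil

def c4 : tietze.Walk 4 4 :=
  .cons (v := 10) (by decide) <| .cons (v := 11) (by decide) <| .cons (v := 5) (by decide) <|
  .cons (v := 7) (by decide) <| .cons (v := 9) (by decide) <| .cons (v := 4) (by decide) .nil

/-- `c1` with `c3` inserted at `2` and `c4` inserted at `4`, followed by `c2`. -/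
def tour : tietze.Walk 0 0 :=
  .cons (v := 1) (by decide) <| .cons (v := 2) (by decide) <| c3.append <|
  .cons (v := 3) (by decide) <| .cons (v := 4) (by decide) <| c4.append <|
  .cons (v := 10) (by decide) <| .cons (v := 0) (by decide) <| c2

theorem c1_cycle : c1.IsCycle := by
  rw [Walk.isCycle_def, Walk.isTrail_def]
  refine ⟨by decide, by simp [c1], by decide⟩

theorem c2_cycle : c2.IsCycle := by
  rw [Walk.isCycle_def, Walk.isTrail_def]
  refine ⟨by decide, by simp [c2], by decide⟩

theorem c3_cycle : c3.IsCycle := by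
  rw [Walk.isCycle_def, Walk.isTrail_def]
  refine ⟨by decide, by simp [c3], by decide⟩

theorem c4_cycle : c4.IsCycle := by
  rw [Walk.isCycle_def, Walk.isTrail_def]
  refine ⟨by decide, by simp [c4], by decide⟩

theorem ncard_cycle {G : SimpleGraph (Fin 12)} {u : Fin 12} {p : G.Walk u u} (hp : p.IsCycle) :
    p.toSubgraph.edgeSet.ncard = p.length := by
  classical
  rw [Walk.edgeSet_toSubgraph]
  have : p.edgeSet = (p.edges.toFinset : Set (Sym2 (Fin 12))) := by
    ext e; simp
  rw [this, Set.ncard_coe_finset, List.toFinset_card_of_nodup hp.edges_nodup, Walk.length_edges]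

theorem postman_24 : 24 ∈ postmanLengths tietze := by
  refine ⟨0, tour, ?_, ?_⟩
  · have : ∀ e ∈ tietze.edgeFinset, e ∈ tour.edges := by decide
    intro e he
    exact this e (by rwa [SimpleGraph.mem_edgeFinset])
  · decide

theorem cover_24 : 24 ∈ coverLengths tietze := by
  refine ⟨{c1.toSubgraph, c2.toSubgraph, c3.toSubgraph, c4.toSubgraph}, ?_, ?_, ?_⟩
  · intro C hC
    simp only [Multiset.insert_eq_cons, Multiset.mem_cons, Multiset.mem_singleton] at hC
    rcases hC with rfl | rfl | rfl | rfl
    · exact .of_isCycle c1_cycle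
    · exact .of_isCycle c2_cycle
    · exact .of_isCycle c3_cycle
    · exact .of_isCycle c4_cycle
  · have : ∀ e ∈ tietze.edgeFinset, e ∈ c1.edges ∨ e ∈ c2.edges ∨ e ∈ c3.edges ∨ e ∈ c4.edges := by
      decide
    intro e he
    rcases this e (by rwa [SimpleGraph.mem_edgeFinset]) with h | h | h | h
    · exact ⟨c1.toSubgraph, by simp, by simpa [Walk.mem_edges_toSubgraph] using h⟩
    · exact ⟨c2.toSubgraph, by simp, by simpa [Walk.mem_edges_toSubgraph] using h⟩
    · exact ⟨c3.toSubgraph, by simp, by simpa [Walk.mem_edges_toSubgraph] using h⟩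
    · exact ⟨c4.toSubgraph, by simp, by simpa [Walk.mem_edges_toSubgraph] using h⟩
  · simp only [Multiset.insert_eq_cons, Multiset.map_cons, Multiset.map_singleton,
      Multiset.sum_cons, Multiset.sum_singleton, ncard_cycle c1_cycle, ncard_cycle c2_cycle,
      ncard_cycle c3_cycle, ncard_cycle c4_cycle]
    decide

theorem deg3 : ∀ v, tietze.degree v = 3 := by decide

theorem CPP_tietze : CPP tietze = 24 := by
  apply le_antisymm (Nat.sInf_le postman_24)
  apply le_csInf ⟨24, postman_24⟩
  rintro L ⟨u, p, hp, rfl⟩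
  have := walk_lower deg3 p hp
  simpa using this

theorem SCC_tietze : SCC tietze = 24 := by
  apply le_antisymm (Nat.sInf_le cover_24)
  apply le_csInf ⟨24, cover_24⟩
  rintro L ⟨F, hF, hc, rfl⟩
  have := cover_lower deg3 F hF hc
  simpa using this

theorem threeConn_tietze : IsThreeConnected tietze := by
  refine ⟨by simp, ?_⟩
  intro S hS
  exact threeConn_aux S hS

/-- **Disproof of Q1.** There is a `3`-connected cubic graph `G` on 12 vertices (the Tietze graph)
with `SCC(G) = CPP(G) = 24` which does not have the cycle cover property. -/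
theorem tietze_result : ∃ G : SimpleGraph (Fin 12), IsThreeConnected G ∧ (∀ v, (G.neighborSet v).ncard = 3) ∧
    CPP G = 24 ∧ SCC G = 24 ∧ ¬ HasCycleCoverProperty G := by
  refine ⟨tietze, threeConn_tietze, ?_, CPP_tietze, SCC_tietze, ?_⟩
  · intro v
    rw [Set.ncard_eq_toFinset_card', Set.toFinset_card, SimpleGraph.card_neighborSet_eq_degree]
    exact deg3 v
  · intro h
    exact not_coverable (h w0 w0_eulerian)

end Pool.Agent.Lib.H84T
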